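import Pool.Agent.H14R3.KK.Defs
import Pool.Agent.H14R3.KK.S.LMAXB

/-! Task LMAXP of project KK (MP_d47e08_pr). -/

set_option autoImplicit false
open MeasureTheory ProbabilityTheory Filter Topology

namespace KK14

open Matrix in
theorem LMAXP {ι : Type*} [Fintype ι] [DecidableEq ι] [Nonempty ι] (A : Matrix ι ι ℝ)
    (hA : A.transpose = A) (p : ℕ) : |lmax A| ^ (2 * p) ≤ (A ^ (2 * p)).trace := by
  have hH : A.IsHermitian := by
    rw [Matrix.IsHermitian, Matrix.conjTranspose_eq_transpose_of_trivial]; exact hA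
  obtain ⟨U, hU1, hU2, hUA⟩ : ∃ U : Matrix ι ι ℝ, Uᵀ * U = 1 ∧ U * Uᵀ = 1 ∧
      A = U * diagonal hH.eigenvalues * Uᵀ := by
    refine ⟨(hH.eigenvectorUnitary : Matrix ι ι ℝ), ?_, ?_, ?_⟩
    · have := Unitary.coe_star_mul_self hH.eigenvectorUnitary
      rwa [Matrix.star_eq_conjTranspose, Matrix.conjTranspose_eq_transpose_of_trivial] at this
    · have := Unitary.coe_mul_star_self hH.eigenvectorUnitary
      rwa [Unitary.coe_star, Matrix.star_eq_conjTranspose,
        Matrix.conjTranspose_eq_transpose_of_trivial] at this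
    · have h := hH.spectral_theorem
      rw [Unitary.conjStarAlgAut_apply] at h
      rw [← Matrix.conjTranspose_eq_transpose_of_trivial, ← Matrix.star_eq_conjTranspose]
      exact h
  set d := hH.eigenvalues with hd
  -- powers
  have hpow : ∀ k : ℕ, A ^ k = U * diagonal (fun i => d i ^ k) * Uᵀ := by
    intro k
    induction k with
    | zero => simp [hU2]
    | succ k ih =>
      have e : diagonal (fun i => d i ^ (k + 1)) = diagonal (fun i => d i ^ k) * diagonal d := by
        rw [Matrix.diagonal_mul_diagonal]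
        simp only [pow_succ]
      calc A ^ (k + 1) = A ^ k * A := pow_succ _ _
        _ = (U * diagonal (fun i => d i ^ k) * Uᵀ) * (U * diagonal d * Uᵀ) := by rw [ih, ← hUA]
        _ = U * diagonal (fun i => d i ^ k) * (Uᵀ * U) * diagonal d * Uᵀ := by
          simp only [Matrix.mul_assoc]
        _ = U * diagonal (fun i => d i ^ (k + 1)) * Uᵀ := by
          rw [hU1, Matrix.mul_one, e, Matrix.mul_assoc U]
  have htr : (A ^ (2 * p)).trace = ∑ i, d i ^ (2 * p) := by
    rw [hpow, Matrix.trace_mul_comm, ← Matrix.mul_assoc, hU1, Matrix.one_mul,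
      Matrix.trace_diagonal]
  obtain ⟨v, hv, hl⟩ := LMAXX A
  set w := Uᵀ *ᵥ v with hw
  have hvA : ∑ i, ∑ j, v i * A i j * v j = ∑ i, d i * w i ^ 2 := by
    have h1 : ∑ i, ∑ j, v i * A i j * v j = v ⬝ᵥ (A *ᵥ v) := by
      simp only [dotProduct, Matrix.mulVec, Finset.mul_sum, mul_assoc]
    rw [h1, hUA, ← Matrix.mulVec_mulVec, ← Matrix.mulVec_mulVec, Matrix.dotProduct_mulVec,
      ← Matrix.mulVec_transpose, ← hw]
    simp only [dotProduct, Matrix.mulVec_diagonal]
    exact Finset.sum_congr rfl fun i _ => by ring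
  have hww : ∑ i, w i ^ 2 = 1 := by
    have h1 : ∑ i, w i ^ 2 = w ⬝ᵥ w := by
      simp only [dotProduct, pow_two]
    have h2 : w ⬝ᵥ w = v ⬝ᵥ ((U * Uᵀ) *ᵥ v) := by
      rw [← Matrix.mulVec_mulVec, Matrix.dotProduct_mulVec v, ← Matrix.mulVec_transpose]
    rw [h1, h2, hU2, Matrix.one_mulVec, ← hv]
    simp only [dotProduct, pow_two]
  obtain ⟨i0, _, hi0⟩ := Finset.exists_max_image Finset.univ (fun i => |d i|)
    Finset.univ_nonempty
  have hle : |lmax A| ≤ |d i0| := by
    rw [hl, hvA]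
    calc |∑ i, d i * w i ^ 2| ≤ ∑ i, |d i * w i ^ 2| := Finset.abs_sum_le_sum_abs _ _
      _ ≤ ∑ i, |d i0| * w i ^ 2 := by
        apply Finset.sum_le_sum
        intro i _
        rw [abs_mul, abs_of_nonneg (sq_nonneg (w i))]
        exact mul_le_mul_of_nonneg_right (hi0 i (Finset.mem_univ i)) (sq_nonneg _)
      _ = |d i0| := by rw [← Finset.mul_sum, hww, mul_one]
  rw [htr]
  calc |lmax A| ^ (2 * p) ≤ |d i0| ^ (2 * p) := pow_le_pow_left₀ (abs_nonneg _) hle _
    _ = d i0 ^ (2 * p) := by rw [pow_mul, pow_mul, sq_abs]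
    _ ≤ ∑ i, d i ^ (2 * p) :=
      Finset.single_le_sum (f := fun i => d i ^ (2 * p))
        (fun i _ => by rw [pow_mul]; positivity) (Finset.mem_univ i0)

end KK14
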